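import Pool.Agent.H41.Final

/-!
# Lattice-cube isoperimetry for CAT(0) cube complexes

Every finite CAT(0) complex glued from `V` unit 3-cubes (for example every CAT(0) cubulated
3-ball) with `A` boundary squares is compared with a set of exactly `V` unit cubes of the cubic
lattice which has at most `A` boundary squares.

Outline of the proof.  The vertices of the complex form a median graph (Paths, Cover, Median),
the crossing graph of its hyperplanes (half-spaces) has no complete subgraph on four vertices
and contains one triangle for every cube (Helly, Hyper), and every crossing pair of hyperplanes
has at least two boundary squares (Bdry).  A set of `V` triangles in a graph without complete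
subgraph on four vertices is compressed to a downset of `V` lattice cubes whose three
projections have together at most as many elements as the graph has edges (Extremal, Downset),
and a downset has at most twice that many boundary squares (Lattice).
-/

namespace Pool.Agent.Results.MP_d6bc72_co.LatticeIsoperimetry

open Pool.Agent.H41

/-- For every finite complex `K` glued from unit 3-cubes, one for each element of `ι`, which is
CAT(0) in its induced length metric, there is a set `S` of exactly as many unit cubes of the
cubic lattice which has at most as many boundary squares as `K`. -/
theorem result (ι : Type) [Fintype ι] (K : CubeComplex ι) (hK : IsCAT0 K.dist) :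
    ∃ S : Finset (Fin 3 → ℤ), S.card = Fintype.card ι ∧
      (latticeBoundary S).encard ≤ K.boundarySquares.encard := by
  rcases isEmpty_or_nonempty ι with h | h
  · refine ⟨∅, by simp, ?_⟩
    have : latticeBoundary ∅ = ∅ := by
      ext s
      simp [latticeBoundary]
    rw [this]
    simp
  · obtain ⟨c⟩ := h
    haveI : Nonempty ι := ⟨c⟩
    exact CubeComplex.main_nonempty hK (K.vx c (fun _ => false))

end Pool.Agent.Results.MP_d6bc72_co.LatticeIsoperimetry
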